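import Pool.Agent.Lib.MP_fb3619_al.Base3

/-! Module MODM (helper27). -/

universe u

namespace Pool.Agent.FourGp.H27

open Equiv Pool.Agent.FourGp

namespace ModmAux

variable {G : Type u} [Group G] {H K H' K' : Subgroup G} {a b c : G}

/-- Points of a subgroup. -/
def ipt (hle : H' ≤ H) (x : Pt H') : Pt H := ⟨x.1, hle x.2.1, x.2.2⟩

theorem inter (h : Cfg H K a b c) (h' : Cfg H' K' a b c) (hK : K' ≤ K) {x : G} (hx : x ∈ H')
    (hxK : x ∈ K) : x ∈ K' := by
  have key : ∀ y : G, x * y ∈ K' → y ∈ K := fun y hy => by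
    have := K.mul_mem (K.inv_mem hxK) (hK hy)
    rwa [← mul_assoc, inv_mul_cancel, one_mul] at this
  rcases h'.top x hx with e | e | e | e
  · exact e
  · exact absurd (key _ e) h.ea
  · exact absurd (key _ e) h.eb
  · exact absurd (key _ e) h.ec

/-- The common perpendicular of two points of `H'` lies in `H'`. -/
theorem perp_mem (h : Cfg H K a b c) (hH : H' ≤ H) (y p : Pt H')
    (hst : ¬ (inc H K).st (ipt hH y) (ipt hH p)) (z : Pt H)
    (h1 : (inc H K).perp (ipt hH y) z) (h2 : (inc H K).perp (ipt hH p) z) : z.1 ∈ H' := by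
  have e1 := h.geo.uniq _ _ z hst h1 h2
  rw [e1, (part1_geom G H K a b c h).2.1 _ _ hst]
  exact H'.pow_mem (H'.mul_mem y.2.1 p.2.1) _

theorem coordB (hcoor : CoorS.{u}) (h : Cfg H K a b c) (h' : Cfg H' K' a b c)
    (hK : K' ≤ K0 H K) (hH : H' ≤ H) (y : Pt H') (hy : (inc H' K').st h'.pb y) :
    ∃ (α : J h.rot) (γ : J h), IsC h.rot (ipt hH y) α γ ∧ α.1 ∈ K' ∧ γ.1 ∈ K' := by
  have hK' : K' ≤ K := hK.trans (K0_le H K)
  have hg := h.geo
  have hsim : (inc H K).sim h.rot.pa (ipt hH y) :=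
    (part1_clsa G H K a b c h h.pb (ipt hH y) rfl).2 (hK hy)
  obtain ⟨α, γ, hC⟩ := (hcoor G H K b c a h.rot).1 _ hsim
  have hst : (inc H K).st h.pb (ipt hH y) := hg.sim_st hsim
  have n1 : ¬ (inc H K).st (ipt hH y) h.pa := fun e =>
    hg.perp_st _ _ h.pab (hg.st_symm _ _ (hg.st_trans _ _ _ hst e))
  have n2 : ¬ (inc H K).st (ipt hH y) h.pc := fun e =>
    hg.perp_st _ _ h.pbc (hg.st_trans _ _ _ hst e)
  refine ⟨α, γ, hC, ?_, ?_⟩
  · have h1 : (J.bp h.rot α).1 ∈ H' := by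
      refine perp_mem h hH y ⟨a, h'.ha, h.pa.2.2⟩ n1 _ hC.p ?_
      exact hg.perp_symm _ _ (J.perp_bc h.rot α)
    have h2 : c * α.1 ∈ H' := h1
    have h3 := H'.mul_mem h'.hc h2
    rw [← mul_assoc, h.hcc, one_mul] at h3
    exact inter h h' hK' h3 α.memK
  · have h1 : (J.ap h γ).1 ∈ H' := by
      refine perp_mem h hH y ⟨c, h'.hc, h.pc.2.2⟩ n2 _ hC.q ?_
      exact hg.perp_symm _ _ (J.perp_ac h γ)
    have h2 : a * γ.1 ∈ H' := h1
    have h3 := H'.mul_mem h'.ha h2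
    rw [← mul_assoc, h.haa, one_mul] at h3
    exact inter h h' hK' h3 γ.memK

/-- The subgroup generated by the products. -/
noncomputable def W (h : Cfg H K a b c) (K' : Subgroup G) : AddSubgroup (J h.rot) := AddSubgroup.closure
  {u : J h.rot | ∃ (β : J h.rot.rot) (γ : J h), β.1 ∈ K' ∧ γ.1 ∈ K' ∧ u = mulH h.rot β γ}

theorem step (hcoor : CoorS.{u}) (hinc : IncS.{u}) (h : Cfg H K a b c) (h' : Cfg H' K' a b c)
    (hK : K' ≤ K0 H K) (hH : H' ≤ H) (l y y' : Pt H') (hl : (inc H' K').st h'.pc l)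
    (h1 : (inc H' K').perp l y) (h2 : (inc H' K').perp l y') (α α' : J h.rot) (γ γ' : J h)
    (hC : IsC h.rot (ipt hH y) α γ) (hC' : IsC h.rot (ipt hH y') α' γ') (hγ : γ.1 ∈ K')
    (hγ' : γ'.1 ∈ K') : α - α' ∈ W h K' := by
  obtain ⟨β, α₀, hD, hβ, -⟩ := coordB hcoor h.rot h'.rot hK hH l hl
  have e1 := (hinc G H K c a b h.rot.rot (ipt hH l) (ipt hH y) β α₀ α γ hD hC).1 h1
  have e2 := (hinc G H K c a b h.rot.rot (ipt hH l) (ipt hH y') β α₀ α' γ' hD hC').1 h2
  have e3 : α - α' = mulH h.rot β γ' - mulH h.rot β γ := by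
    have e4 : α + mulH h.rot β γ = α' + mulH h.rot β γ' := e1.symm.trans e2
    rw [sub_eq_sub_iff_add_eq_add, e4, add_comm]
  rw [e3]
  exact sub_mem (AddSubgroup.subset_closure ⟨β, γ', hβ, hγ', rfl⟩)
    (AddSubgroup.subset_closure ⟨β, γ, hβ, hγ, rfl⟩)

end ModmAux

open ModmAux in
theorem modm (hcoor : CoorS.{u}) (hinc : IncS.{u}) : ModmS.{u} := by
  intro G _ H K H' K' a b c h h' hK hH α hα
  change α ∈ W h K'
  have hg' := h'.geo
  obtain ⟨t, ht, hs⟩ := hg'.label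
  -- the induction
  have main : ∀ y y' : Pt H', (inc H' K').sim y y' → (inc H' K').st h'.pb y →
      ∀ (α α' : J h.rot) (γ γ' : J h), IsC h.rot (ipt hH y) α γ →
      IsC h.rot (ipt hH y') α' γ' → α - α' ∈ W h K' := by
    intro y y' hyy
    induction hyy with
    | rel y y' e =>
      intro hy α α' γ γ' hC hC'
      have hst := hg'.R1_st e
      obtain ⟨n, l, l', z, h1, h2, h3, h4, h5, h6, h7, h8, h9⟩ := e
      have hy' : (inc H' K').st h'.pb y' := hg'.st_trans _ _ _ hy hst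
      have hz : (inc H' K').st h'.pb z := hg'.st_trans _ _ _ hy h3
      have cK : ∀ (p : Pt H'), (inc H' K').st h'.pb p → ∀ (α : J h.rot) (γ : J h),
          IsC h.rot (ipt hH p) α γ → γ.1 ∈ K' := by
        intro p hp α γ hC
        obtain ⟨α₁, γ₁, hC₁, -, e1⟩ := coordB hcoor h h' hK hH p hp
        rwa [((hcoor G H K b c a h.rot).2.2.2.1 _ _ _ _ _ hC hC₁).2]
      have i1 := hg'.perp_st _ _ h1
      have i4 := hg'.perp_st _ _ h4
      have i7 := hg'.perp_st _ _ h7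
      have j1 := hg'.perp_st _ _ h'.pab
      have j2 := hg'.perp_st _ _ h'.pbc
      have j3 := hg'.perp_st _ _ h'.pca
      by_cases hn : (inc H' K').st h'.pc n
      · exact step hcoor hinc h h' hK hH n y y' hn h1 h2 α α' γ γ' hC hC' (cK y hy α γ hC)
          (cK y' hy' α' γ' hC')
      · obtain ⟨α₁, γ₁, hC₁, -, e1⟩ := coordB hcoor h h' hK hH z hz
        have t1 := ht n; have t2 := ht l; have t3 := ht l'; have t4 := ht y
        have t5 := ht h'.pa; have t6 := ht h'.pb; have t7 := ht h'.pc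
        have hl : (inc H' K').st h'.pc l := by
          rw [hs] at *
          omega
        have hl' : (inc H' K').st h'.pc l' := hg'.st_trans _ _ _ hl h8
        have a1 := step hcoor hinc h h' hK hH l y z hl h4 h5 α α₁ γ γ₁ hC hC₁ (cK y hy α γ hC) e1
        have a2 := step hcoor hinc h h' hK hH l' z y' hl' h6 h7 α₁ α' γ₁ γ' hC₁ hC' e1
          (cK y' hy' α' γ' hC')
        have a3 := add_mem a1 a2
        rwa [sub_add_sub_cancel] at a3
    | refl y =>
      intro hy α α' γ γ' hC hC'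
      rw [((hcoor G H K b c a h.rot).2.2.2.1 _ _ _ _ _ hC hC').1, sub_self]
      exact zero_mem _
    | symm y y' e ih =>
      intro hy α α' γ γ' hC hC'
      have := ih (hg'.st_trans _ _ _ hy (hg'.st_symm _ _ (hg'.sim_st e))) α' α γ' γ hC' hC
      rw [← neg_sub]
      exact neg_mem this
    | trans y z y' e1 e2 ih1 ih2 =>
      intro hy α α' γ γ' hC hC'
      have hz := hg'.st_trans _ _ _ hy (hg'.sim_st e1)
      obtain ⟨α₁, γ₁, hC₁, -, -⟩ := coordB hcoor h h' hK hH z hz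
      have a1 := ih1 hy α α₁ γ γ₁ hC hC₁
      have a2 := ih2 hz α₁ α' γ₁ γ' hC₁ hC'
      have a3 := add_mem a1 a2
      rwa [sub_add_sub_cancel] at a3
  have hαJ : α.1 * a = a * α.1 := α.2.2
  let α' : J h'.rot := ⟨α.1, hα, hαJ⟩
  have hsim : (inc H' K').sim h'.pb (J.ap h'.rot α') := J.sim_a h'.rot α'
  have c1 : IsC h.rot (ipt hH h'.pb) 0 0 := by
    have := (hcoor G H K b c a h.rot).2.2.2.2.2.1 0
    rw [J.ap_zero] at this
    exact this
  have c2 : IsC h.rot (ipt hH (J.ap h'.rot α')) α 0 :=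
    (hcoor G H K b c a h.rot).2.2.2.2.2.1 α
  have h1 := main _ _ hsim (hg'.st_refl _) 0 α 0 0 c1 c2
  rw [zero_sub] at h1
  have h2 := neg_mem h1
  rwa [neg_neg] at h2

end Pool.Agent.FourGp.H27
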