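import Pool.Agent.Lib.MP_fb3619_al.Base3

/-! Module SAH (helper27). -/

universe u

namespace Pool.Agent.FourGp.H27

open Equiv Pool.Agent.FourGp

namespace SahAux

variable {G : Type u} [Group G] {H K : Subgroup G} {a b c : G}

/-- An element of `C_K(a)` commuting with `K₃ ∩ C(b)` and `K₃ ∩ C(c)` is trivial. -/
theorem fin (hchain : ChainS.{u}) (h : Cfg H K a b c) (hJ : JC H K) (x : J h.rot)
    (h1 : ∀ β : J h.rot.rot, β.1 ∈ K3 H K a b c → x.1 * β.1 = β.1 * x.1)
    (h2 : ∀ γ : J h, γ.1 ∈ K3 H K a b c → x.1 * γ.1 = γ.1 * x.1) : x = 0 := by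
  obtain ⟨-, -, -, -, c5, c6, -, -, c9, c10⟩ := hchain G H K a b c h hJ.fg
  have hle0 : K3 H K a b c ≤ K0 H K := c6.trans c5
  have hle : K3 H K a b c ≤ K := hle0.trans (K0_le H K)
  apply J.ext
  rw [J.zero_val]
  refine part1_cent G H K a b c h hJ (K3 H K a b c) hle c9 x.1 x.memK fun l hl => ?_
  obtain ⟨β, hβ, α, hα, γ, hγ, e1, e2, e3, rfl⟩ := c10 l hl
  have f1 : x.1 * β = β * x.1 := h1 ⟨β, hle0 hβ, e1⟩ hβ
  have f3 : x.1 * γ = γ * x.1 := h2 ⟨γ, hle0 hγ, e3⟩ hγ
  have f2 : x.1 * α = α * x.1 := by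
    have i1 := part1_invt G H K a b c h x.1 x.memK (Eq.symm x.2.2)
    have i2 := part1_invt G H K a b c h α (hle hα) e2.symm
    have hxα : a * (x.1 * α) = x.1 * α * a := by
      have hx : x.1 * a = a * x.1 := x.2.2
      rw [← mul_assoc, ← hx, mul_assoc, mul_assoc, e2]
    have i3 := part1_invt G H K a b c h (x.1 * α) (K.mul_mem x.memK (hle hα)) hxα
    have i4 : b * (x.1 * α) * b = (b * x.1 * b) * (b * α * b) := by
      calc b * (x.1 * α) * b = b * x.1 * (1 * (α * b)) := by group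
        _ = b * x.1 * (b * b * (α * b)) := by rw [h.hbb]
        _ = (b * x.1 * b) * (b * α * b) := by group
    rw [i3, i1, i2] at i4
    have i5 := congrArg (fun z => z⁻¹) i4
    simpa [mul_inv_rev] using i5
  calc x.1 * (β * α * γ) = (x.1 * β) * (α * γ) := by group
    _ = β * (x.1 * α) * γ := by rw [f1]; group
    _ = β * α * (x.1 * γ) := by rw [f2]; group
    _ = β * α * γ * x.1 := by rw [f3]; group

theorem third (hmodm : ModmS.{u}) (hchain : ChainS.{u}) (h : Cfg H K a b c) (hJ : JC H K)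
    (x : J h.rot) (hx : x.1 ∈ K2 H K a b c) : x ∈ (tri h).MX := by
  obtain ⟨c1, -, c3, -⟩ := hchain G H K a b c h hJ.fg
  have h1 := hmodm G H K (H1 H K a b c) (K0 H K) a b c h c1 le_rfl c3 x hx
  refine AddSubgroup.closure_mono ?_ h1
  rintro u ⟨β, γ, -, -, rfl⟩
  exact ⟨β, γ, rfl⟩

end SahAux

open SahAux in
theorem sah (hrotx : RotxS.{u}) (hmodm : ModmS.{u}) (hchain : ChainS.{u}) : SahS.{u} := by
  intro G _ H K a b c h hJ
  obtain ⟨p1, p2, -, -⟩ := hrotx G H K a b c h
  obtain ⟨-, c2, c3, c4, c5, c6, -, -, c9, c10⟩ := hchain G H K a b c h hJ.fg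
  have hH2 : H2 H K a b c ≤ H := c4.trans c3
  -- membership of `K₂`-elements in `MY`, `MZ`
  have mY : ∀ β : J h.rot.rot, β.1 ∈ K2 H K a b c → β ∈ (tri h).MY := fun β hβ =>
    third hmodm hchain h.rot hJ β (by rw [K2_rot]; exact hβ)
  have mZ : ∀ γ : J h, γ.1 ∈ K2 H K a b c → γ ∈ (tri h).MZ := fun γ hγ =>
    third hmodm hchain h.rot.rot hJ γ (by rw [K2_rot, K2_rot]; exact hγ)
  refine ⟨fun x hx => ?_, fun x hx => ?_, fun x hx => third hmodm hchain h hJ x hx⟩
  · refine fin hchain h hJ x (fun β hβ => ?_) fun γ hγ => ?_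
    · have e1 := hx β (mY β (c6 hβ))
      exact (part2_mulf G H K a b c h x β).2.2.1 e1
    · have e1 := hmodm G H K (H2 H K a b c) (K2 H K a b c) c a b h.rot.rot c2.rot.rot c5 hH2 γ hγ
      have e2 : mulH h.rot.rot γ x = 0 := by
        refine AddSubgroup.closure_induction (p := fun γ _ => mulH h.rot.rot γ x = 0) ?_ ?_ ?_ ?_
          e1
        · rintro _ ⟨α, β, -, hβ, rfl⟩
          have e3 := p1 x α β
          have e4 : mulH h x β = 0 := hx β (mY β hβ)
          rw [e4, map_zero, AddMonoidHom.zero_apply] at e3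
          exact e3
        · rw [map_zero, AddMonoidHom.zero_apply]
        · intro γ₁ γ₂ _ _ i1 i2
          rw [map_add, AddMonoidHom.add_apply, i1, i2, add_zero]
        · intro γ₁ _ i1
          rw [map_neg, AddMonoidHom.neg_apply, i1, neg_zero]
      exact ((part2_mulf G H K c a b h.rot.rot γ x).2.2.1 e2).symm
  · refine fin hchain h hJ x (fun β hβ => ?_) fun γ hγ => ?_
    · have e1 := hmodm G H K (H2 H K a b c) (K2 H K a b c) b c a h.rot c2.rot c5 hH2 β hβ
      have e2 : mulH h x β = 0 := by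
        refine AddSubgroup.closure_induction (p := fun β _ => mulH h x β = 0) ?_ ?_ ?_ ?_ e1
        · rintro _ ⟨γ, α, hγ, -, rfl⟩
          have e3 := p2 x α γ
          have e4 : mulH h.rot.rot γ x = 0 := hx γ (mZ γ hγ)
          rw [e4, map_zero] at e3
          exact e3
        · exact map_zero _
        · intro β₁ β₂ _ _ i1 i2
          rw [map_add, i1, i2, add_zero]
        · intro β₁ _ i1
          rw [map_neg, i1, neg_zero]
      exact (part2_mulf G H K a b c h x β).2.2.1 e2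
    · have e1 := hx γ (mZ γ (c6 hγ))
      exact ((part2_mulf G H K c a b h.rot.rot γ x).2.2.1 e1).symm

end Pool.Agent.FourGp.H27
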